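import Pool.Agent.Helper81K1.RP.Final
import Pool.Agent.H505R2.Core

/-!
The choice of the parameters (as in `Pool.Agent.H505R2.core`) and the theorem in terms of counting
functions.
-/

set_option autoImplicit false

namespace Pool.Agent.Helper81K1.RP

open Finset Filter Pool.Agent.H505R2

theorem core (ε : ℝ) (hε : 0 < ε) (hε1 : ε ≤ 1) :
    ∀ᶠ X : ℕ in atTop, ∃ I : ℕ, (X : ℝ) ^ (ε / 14016) < 2 ^ 2 ^ I ∧
      ∀ (H : Type) [Finite H] (f : ℕ → H), (Nat.card H : ℝ) ≤ (X : ℝ) ^ (ε / 14016) →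
      ∃ a b c : H, (X : ℝ) ^ (1 - ε) ≤ ((TB f 1 2 1 I X a b).card : ℝ) ∧
        (X : ℝ) ^ (1 - ε) ≤ ((TB f 2 4 2 I X b c).card : ℝ) ∧
        (X : ℝ) ^ (1 - ε) ≤ ((TB f 0 4 2 I X a c).card : ℝ) := by
  set η : ℝ := ε / 12 with hη
  have hη0 : 0 < η := by rw [hη]; positivity
  have hη1 : η ≤ 1 / 12 := by
    rw [hη]
    linarith
  have hη2 : 12 * η ≤ ε := by
    rw [hη]
    linarith
  have hδ : ε / 14016 = η / 1168 := by rw [hη]; ring
  rw [hδ]
  obtain ⟨C, hC1, hC⟩ := div_bound (δ := η / 3) (by positivity)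
  set C0 : ℕ := 2 * 72 ^ 2 * 148 ^ 2 with hC0def
  have hC0big : 37 ^ 2 ≤ C0 := by rw [hC0def]; norm_num
  obtain ⟨D, hD⟩ := exists_nat_ge (1168 / η)
  set I0 : ℕ := D + 20 with hI0
  filter_upwards [ev_ge hη0 ((2 : ℝ) ^ (584 * 2 ^ I0)), ev_ge (show (0 : ℝ) < 1 - 5 * η by linarith)
    (C0 : ℝ), eventually_ge_atTop 1,
    ev_ge (show (0 : ℝ) < ε - 5 * η by linarith) (4 * (C0 : ℝ) * C)]
    with X hX1 hX2 hX4 hX5
  have hX0 : (0 : ℝ) < X := by exact_mod_cast hX4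
  have hX1' : (1 : ℝ) ≤ X := by exact_mod_cast hX4
  obtain ⟨I, hII, hI1, hI2⟩ := exists_level I0 hX1
  have hI10 : 10 ≤ I := by omega
  refine ⟨I, ?_, ?_⟩
  · -- sifting limit
    have h1 : ((X : ℝ) ^ (η / 1168)) ^ (1168 : ℕ) < ((2 : ℝ) ^ 2 ^ I) ^ (1168 : ℕ) := by
      rw [← Real.rpow_natCast, ← Real.rpow_mul hX0.le, ← pow_mul]
      have e1 : η / 1168 * ((1168 : ℕ) : ℝ) = η := by push_cast; ring
      rw [e1, mul_comm (2 ^ I) 1168]
      exact hI2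
    exact lt_of_pow_lt_pow_left₀ 1168 (by positivity) h1
  -- parameters
  set M : ℕ := C0 * 2 ^ (1168 * 2 ^ I) with hM
  have hC0pos : 0 < C0 := by omega
  have hMpos : 0 < M := by rw [hM]; positivity
  set V : ℕ := Nat.sqrt (X / M) with hV
  have hVX : M * V ^ 2 ≤ X := by
    have h1 : V ^ 2 ≤ X / M := Nat.sqrt_le' _
    calc M * V ^ 2 ≤ M * (X / M) := Nat.mul_le_mul_left _ h1
      _ ≤ X := Nat.mul_div_le _ _
  -- K^5 ≤ X^(5η)
  have hK5 : (2 : ℝ) ^ (2338 * 2 ^ I) ≤ (X : ℝ) ^ (5 * η) := by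
    calc (2 : ℝ) ^ (2338 * 2 ^ I) ≤ ((2 : ℝ) ^ (584 * 2 ^ I)) ^ 5 := by
          rw [← pow_mul]
          apply pow_le_pow_right₀ (by norm_num)
          have : 0 < 2 ^ I := by positivity
          omega
      _ ≤ ((X : ℝ) ^ η) ^ 5 := pow_le_pow_left₀ (by positivity) hI1 5
      _ = (X : ℝ) ^ (5 * η) := by
          rw [← Real.rpow_natCast, ← Real.rpow_mul hX0.le]
          congr 1
          push_cast
          ring
  have hKV : 2 ^ (585 * 2 ^ I) ≤ V := by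
    rw [hV, Nat.le_sqrt, Nat.le_div_iff_mul_le hMpos]
    have h1 : (C0 : ℝ) * 2 ^ (2338 * 2 ^ I) ≤ X := by
      calc (C0 : ℝ) * 2 ^ (2338 * 2 ^ I) ≤ (X : ℝ) ^ (1 - 5 * η) * (X : ℝ) ^ (5 * η) :=
            mul_le_mul hX2 hK5 (by positivity) (by positivity)
        _ = X := by
            rw [← Real.rpow_add hX0]
            have : 1 - 5 * η + 5 * η = 1 := by ring
            rw [this, Real.rpow_one]
    have h2 : 2 ^ (585 * 2 ^ I) * 2 ^ (585 * 2 ^ I) * M = C0 * 2 ^ (2338 * 2 ^ I) := by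
      rw [hM]
      rw [show 2338 * 2 ^ I = 585 * 2 ^ I + 585 * 2 ^ I + 1168 * 2 ^ I by ring, pow_add, pow_add]
      ring
    rw [h2]
    exact_mod_cast h1
  have hV1 : 1 ≤ V := le_trans Nat.one_le_two_pow hKV
  have hX4M : X ≤ 4 * (M * V ^ 2) := by
    have h1 : X < M * (X / M + 1) := Nat.lt_mul_div_succ X hMpos
    have h2 : X / M + 1 ≤ (V + 1) ^ 2 := by
      have := Nat.lt_succ_sqrt' (X / M)
      rw [← hV] at this
      exact this
    have h3 : (V + 1) ^ 2 ≤ 4 * V ^ 2 := by nlinarith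
    calc X ≤ M * (X / M + 1) := h1.le
      _ ≤ M * (4 * V ^ 2) := Nat.mul_le_mul_left _ (h2.trans h3)
      _ = 4 * (M * V ^ 2) := by ring
  set W : ℕ := D * 2 ^ I with hW
  have hXW : (X : ℝ) ≤ 2 ^ W := by
    have h1 : (X : ℝ) = ((X : ℝ) ^ η) ^ (1 / η) := by
      rw [← Real.rpow_mul hX0.le, mul_one_div_cancel hη0.ne', Real.rpow_one]
    rw [h1]
    calc ((X : ℝ) ^ η) ^ (1 / η) ≤ ((2 : ℝ) ^ (1168 * 2 ^ I)) ^ (1 / η) :=
          Real.rpow_le_rpow (by positivity) hI2.le (by positivity)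
      _ = (2 : ℝ) ^ (((1168 * 2 ^ I : ℕ) : ℝ) * (1 / η)) := by
          rw [← Real.rpow_natCast, ← Real.rpow_mul (by norm_num)]
      _ ≤ (2 : ℝ) ^ ((W : ℕ) : ℝ) := by
          apply Real.rpow_le_rpow_of_exponent_le (by norm_num)
          rw [hW]
          push_cast
          have h2 : (0 : ℝ) < 2 ^ I := by positivity
          calc (1168 : ℝ) * 2 ^ I * (1 / η) = (1168 / η) * 2 ^ I := by ring
            _ ≤ D * 2 ^ I := mul_le_mul_of_nonneg_right hD h2.le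
      _ = (2 : ℝ) ^ W := Real.rpow_natCast _ _
  have hVW : 37 * V ≤ 2 ^ W := by
    have h1 : X ≤ 2 ^ W := by exact_mod_cast hXW
    refine le_trans ?_ h1
    have h2 : 37 ^ 2 * V ^ 2 ≤ M * V ^ 2 := by
      apply Nat.mul_le_mul_right
      rw [hM]
      calc 37 ^ 2 = 37 ^ 2 * 1 := by norm_num
        _ ≤ C0 * 2 ^ (1168 * 2 ^ I) := Nat.mul_le_mul hC0big Nat.one_le_two_pow
    nlinarith
  have hWI : W * 2 ^ (93 * I + 4) ≤ 2 ^ 2 ^ I := by
    have h1 : D ≤ 2 ^ D := Nat.lt_two_pow_self.le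
    calc W * 2 ^ (93 * I + 4) ≤ (2 ^ D * 2 ^ I) * 2 ^ (93 * I + 4) := by
          rw [hW]
          exact Nat.mul_le_mul_right _ (Nat.mul_le_mul_right _ h1)
      _ = 2 ^ (D + I + (93 * I + 4)) := by rw [← pow_add, ← pow_add]
      _ ≤ 2 ^ 2 ^ I := by
          apply Nat.pow_le_pow_right (by norm_num)
          have h2 : 95 * I + 4 ≤ 2 ^ I := by
            have h3 : ∀ n : ℕ, 20 ≤ n → 95 * n + 4 ≤ 2 ^ n := by
              intro n hn
              induction n, hn using Nat.le_induction with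
              | base => norm_num
              | succ n hn ih => rw [pow_succ]; omega
            exact h3 I (by omega)
          omega
  -- divisor bound
  set T : ℕ := ⌊C * (X : ℝ) ^ η⌋₊ with hT
  have hTb : ∀ N : ℕ, N ≤ X → (((N : ℤ) ^ 2 - 2).toNat).divisors.card ≤ T := by
    intro N hN
    by_cases h0 : ((N : ℤ) ^ 2 - 2).toNat = 0
    · rw [h0, Nat.divisors_zero, card_empty]
      exact Nat.zero_le _
    have h2 : ((N : ℤ) ^ 2 - 2).toNat ≤ X ^ 3 := by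
      have hNX : N ^ 2 ≤ X ^ 2 := Nat.pow_le_pow_left hN 2
      have hXX : X ^ 2 ≤ X ^ 3 := Nat.pow_le_pow_right hX4 (by norm_num)
      have h3 : ((N : ℤ) ^ 2 - 2).toNat ≤ N ^ 2 := by
        rw [Int.toNat_le]
        push_cast
        linarith
      omega
    rw [hT]
    apply Nat.le_floor
    refine (hC _ h0).trans ?_
    apply mul_le_mul_of_nonneg_left _ (by linarith)
    calc ((((N : ℤ) ^ 2 - 2).toNat : ℕ) : ℝ) ^ (η / 3) ≤ ((X : ℝ) ^ 3) ^ (η / 3) := by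
          apply Real.rpow_le_rpow (by positivity) _ (by positivity)
          exact_mod_cast h2
      _ = (X : ℝ) ^ η := by
          rw [← Real.rpow_natCast, ← Real.rpow_mul hX0.le]
          congr 1
          push_cast
          ring
  have hTle : (T : ℝ) ≤ C * (X : ℝ) ^ η := Nat.floor_le (by positivity)
  intro H _ f hHX
  have : Nonempty H := ⟨f 0⟩
  have hHc : 0 < Nat.card H := Nat.card_pos
  have hH3 : (Nat.card H : ℝ) ^ 3 ≤ (X : ℝ) ^ η := by
    calc (Nat.card H : ℝ) ^ 3 ≤ ((X : ℝ) ^ (η / 1168)) ^ 3 :=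
          pow_le_pow_left₀ (by positivity) hHX 3
      _ = (X : ℝ) ^ (3 * η / 1168) := by
          rw [← Real.rpow_natCast, ← Real.rpow_mul hX0.le]
          congr 1
          push_cast
          ring
      _ ≤ (X : ℝ) ^ η := Real.rpow_le_rpow_of_exponent_le hX1' (by linarith)
  obtain ⟨a, b, c, f1, f2, f3⟩ := finite_version f I hI10 V W X T C0 hVW hKV hWI
    (by rw [hC0def]) hVX hTb
  -- from counts to power bounds
  obtain ⟨κ, hκ⟩ : ∃ κ : ℝ, κ = (Nat.card H : ℝ) ^ 3 := ⟨_, rfl⟩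
  have hκ0 : 0 < κ := by rw [hκ]; positivity
  rw [← hκ] at f1 f2 f3 hH3
  have hX5' : 4 * κ * C0 * C ≤ (X : ℝ) ^ (ε - 4 * η) := by
    calc 4 * κ * C0 * C = κ * (4 * C0 * C) := by ring
      _ ≤ (X : ℝ) ^ η * (X : ℝ) ^ (ε - 5 * η) := mul_le_mul hH3 hX5 (by positivity) (by positivity)
      _ = (X : ℝ) ^ (ε - 4 * η) := by
          rw [← Real.rpow_add hX0]
          congr 1
          ring
  have conv : ∀ S : ℝ, 0 ≤ S → (V : ℝ) ^ 2 ≤ 2 ^ (584 * 2 ^ I) * (κ * T * S) →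
      (X : ℝ) ^ (1 - ε) ≤ S := by
    intro S hS h
    have h1 : (X : ℝ) ≤ 4 * ((C0 : ℝ) * 2 ^ (1168 * 2 ^ I) * (V : ℝ) ^ 2) := by
      have : ((X : ℕ) : ℝ) ≤ ((4 * (M * V ^ 2) : ℕ) : ℝ) := by exact_mod_cast hX4M
      rw [hM] at this
      push_cast at this
      exact this
    set K : ℝ := 2 ^ (584 * 2 ^ I) with hK
    have hK0 : 0 < K := by rw [hK]; positivity
    have hKK : (2 : ℝ) ^ (1168 * 2 ^ I) = K ^ 2 := by
      rw [hK, ← pow_mul, show 584 * 2 ^ I * 2 = 1168 * 2 ^ I by ring]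
    have h2 : (X : ℝ) ≤ 4 * κ * C0 * (K ^ 3 * (T * S)) := by
      rw [hKK] at h1
      refine h1.trans ?_
      calc 4 * ((C0 : ℝ) * K ^ 2 * (V : ℝ) ^ 2) ≤ 4 * ((C0 : ℝ) * K ^ 2 * (K * (κ * T * S))) := by
            have : (0 : ℝ) ≤ (C0 : ℝ) * K ^ 2 := by positivity
            nlinarith [mul_le_mul_of_nonneg_left h this]
        _ = 4 * κ * C0 * (K ^ 3 * (T * S)) := by ring
    have h3 : (X : ℝ) ≤ 4 * κ * C0 * (((X : ℝ) ^ η) ^ 3 * (C * (X : ℝ) ^ η * S)) := by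
      refine h2.trans ?_
      apply mul_le_mul_of_nonneg_left _ (by positivity)
      apply mul_le_mul (pow_le_pow_left₀ hK0.le hI1 3) _ (by positivity) (by positivity)
      exact mul_le_mul_of_nonneg_right hTle hS
    have h4 : ((X : ℝ) ^ η) ^ 3 * (X : ℝ) ^ η = (X : ℝ) ^ (4 * η) := by
      rw [← pow_succ, ← Real.rpow_natCast, ← Real.rpow_mul hX0.le]
      congr 1
      push_cast
      ring
    have h5 : (X : ℝ) ≤ (4 * κ * C0 * C) * ((X : ℝ) ^ (4 * η) * S) := by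
      rw [← h4]
      calc (X : ℝ) ≤ 4 * κ * C0 * (((X : ℝ) ^ η) ^ 3 * (C * (X : ℝ) ^ η * S)) := h3
        _ = (4 * κ * C0 * C) * (((X : ℝ) ^ η) ^ 3 * (X : ℝ) ^ η * S) := by ring
    have h6 : (X : ℝ) ≤ (X : ℝ) ^ (ε - 4 * η) * ((X : ℝ) ^ (4 * η) * S) :=
      h5.trans (mul_le_mul_of_nonneg_right hX5' (by positivity))
    rw [← mul_assoc, ← Real.rpow_add hX0, show ε - 4 * η + 4 * η = ε by ring] at h6
    rw [Real.rpow_sub hX0, Real.rpow_one, div_le_iff₀ (by positivity), mul_comm]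
    exact h6
  exact ⟨a, b, c, conv _ (Nat.cast_nonneg _) f1, conv _ (Nat.cast_nonneg _) f2,
    conv _ (Nat.cast_nonneg _) f3⟩

end Pool.Agent.Helper81K1.RP
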