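import Pool.Agent.Helper81K1.RP.Trip

/-!
Pigeonhole over the triangles of vectors with norms free of small primes.
-/

set_option autoImplicit false

namespace Pool.Agent.Helper81K1.RP

open Finset Pool.Agent.H505R2

variable {H : Type}

open Classical in
/-- integers `N ≤ X`, `N ≡ r mod k`, with `N ^ 2 - 2 = s A B`, `A` and `B` free of small primes, `f A = a`
and `f B = b` -/
noncomputable def TB (f : ℕ → H) (r k : ℕ) (s : ℤ) (I X : ℕ) (a b : H) : Finset ℕ :=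
  (range (X + 1)).filter (fun N : ℕ => N % k = r ∧
    ∃ A B : ℕ, (N : ℤ) ^ 2 - 2 = s * (A * B) ∧ (1 < A ∧ Lg I A ∧ f A = a) ∧ (1 < B ∧ Lg I B ∧ f B = b))

lemma mem_TB {f : ℕ → H} {r k : ℕ} {s : ℤ} {I X : ℕ} {a b : H} {N : ℕ} :
    N ∈ TB f r k s I X a b ↔ N ≤ X ∧ N % k = r ∧
      ∃ A B : ℕ, (N : ℤ) ^ 2 - 2 = s * (A * B) ∧ (1 < A ∧ Lg I A ∧ f A = a) ∧
        (1 < B ∧ Lg I B ∧ f B = b) := by
  classical
  unfold TB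
  rw [mem_filter, mem_range, Nat.lt_succ_iff]

theorem main_count [Finite H] (f : ℕ → H)
    (I : ℕ) (hI : 10 ≤ I) (G : Finset (ℤ × ℤ))
    (hG : ∀ g ∈ G, IsCoprime g.1 g.2 ∧
      (∃ u v : ℤ, 0 ≤ u ∧ 0 ≤ v ∧ g.2 = 36 * v + 1 ∧ g.1 = 36 * u + 3 * g.2) ∧
      Sft I (qf 0 (-2) g)) (X T : ℕ)
    (hX : ∀ g ∈ G, 2 * (36 * 2 ^ (584 * 2 ^ I) + 36) ^ 2 * qf 0 (-2) g ≤ X)
    (hT : ∀ N : ℕ, N ≤ X → (((N : ℤ) ^ 2 - 2).toNat).divisors.card ≤ T) :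
    ∃ a b c : H, G.card ≤ Nat.card H ^ 3 * T * (TB f 1 2 1 I X a b).card ∧
      G.card ≤ Nat.card H ^ 3 * T * (TB f 2 4 2 I X b c).card ∧
      G.card ≤ Nat.card H ^ 3 * T * (TB f 0 4 2 I X a c).card := by
  classical
  have : Fintype H := Fintype.ofFinite H
  obtain ⟨R, hR⟩ : ∃ R : ℤ, R = 36 * 2 ^ (584 * 2 ^ I) + 36 := ⟨_, rfl⟩
  have hR1 : 1 ≤ R := by
    rw [hR]
    have : (0 : ℤ) ≤ 2 ^ (584 * 2 ^ I) := by positivity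
    linarith
  have key : ∀ g : ℤ × ℤ, ∃ (x : ℤ × ℤ) (A B C : ℕ), g ∈ G → (dt g x = 1 ∧
      (qf 0 (-2) g = A ∧ qf 0 (-2) x = B ∧ qf 0 (-2) (ad 1 g x) = 2 * C ∧
      (1 < A ∧ 1 < B ∧ 1 < C) ∧ (Lg I A ∧ Lg I B ∧ Lg I C) ∧
      (dt g (ad 1 g x) = 1 ∧ dt (ad 1 g x) x = 1) ∧ (Cn g ∧ Cn (ad 1 g x)) ∧
      (2 ≤ ip 0 (-2) g x ∧ ip 0 (-2) g x ≤ X ∧ ip 0 (-2) g x % 2 = 1) ∧
      (2 ≤ ip 0 (-2) g (ad 1 g x) ∧ ip 0 (-2) g (ad 1 g x) ≤ X ∧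
        ip 0 (-2) g (ad 1 g x) % 4 = 0) ∧
      (2 ≤ ip 0 (-2) (ad 1 g x) x ∧ ip 0 (-2) (ad 1 g x) x ≤ X ∧
        ip 0 (-2) (ad 1 g x) x % 4 = 2))) := by
    intro g
    by_cases hg : g ∈ G
    · obtain ⟨h1, ⟨u, v, hu0, hv0, hv, hu⟩, h4⟩ := hG g hg
      have hq : 0 < qf 0 (-2) g :=
        qf_pos_of_cn ⟨by rw [hu, hv]; linarith, by rw [hv]; linarith, by rw [hu, hv]; linarith⟩
      obtain ⟨x, x1, x2, x3, x4, x5, u', v', hx1, hx2⟩ :=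
        exists_triple' (b := 0) (c := -2) 3 0 1 I hI g hq h1 u v hv hu h4
      have hXg := hX g hg
      rw [← hR] at x3 hXg
      obtain ⟨A, B, C, hABC⟩ := props I R hR1 X g x u v hu0 hv0 hv hu h4 x1 x2 x3 x4 x5 u' v'
        (by rw [hx1]; ring) hx2 hXg
      exact ⟨x, A, B, C, fun _ => ⟨x1, hABC⟩⟩
    · exact ⟨0, 0, 0, 0, fun h => absurd h hg⟩
  choose xf A B C hk using key
  have efm : ∀ N : ℤ, fm 0 (-2) 1 N = N ^ 2 - 2 := fun N => by unfold fm; ring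
  -- membership
  have m1 : ∀ g ∈ G, (ip 0 (-2) g (xf g)).toNat ∈ TB f 1 2 1 I X (f (A g)) (f (B g)) := by
    intro g hg
    obtain ⟨d1, hA, hB, hC, ⟨hA1, hB1, hC1⟩, ⟨hlA, hlB, hlC⟩, ⟨d2, d3⟩, ⟨c1, c2⟩, ⟨n1, n2, n3⟩,
      ⟨n4, n5, n6⟩, ⟨n7, n8, n9⟩⟩ := hk g hg
    rw [mem_TB]
    refine ⟨by omega, by omega, A g, B g, ?_, ⟨hA1, hlA, rfl⟩, ⟨hB1, hlB, rfl⟩⟩
    rw [Int.toNat_of_nonneg (by linarith), ← efm, ← qf_mul_det d1, hA, hB]; ring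
  have m2 : ∀ g ∈ G, (ip 0 (-2) g (ad 1 g (xf g))).toNat ∈
      TB f 0 4 2 I X (f (A g)) (f (C g)) := by
    intro g hg
    obtain ⟨d1, hA, hB, hC, ⟨hA1, hB1, hC1⟩, ⟨hlA, hlB, hlC⟩, ⟨d2, d3⟩, ⟨c1, c2⟩, ⟨n1, n2, n3⟩,
      ⟨n4, n5, n6⟩, ⟨n7, n8, n9⟩⟩ := hk g hg
    rw [mem_TB]
    refine ⟨by omega, by omega, A g, C g, ?_, ⟨hA1, hlA, rfl⟩, ⟨hC1, hlC, rfl⟩⟩
    rw [Int.toNat_of_nonneg (by linarith), ← efm, ← qf_mul_det d2, hA, hC]; ring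
  have m3 : ∀ g ∈ G, (ip 0 (-2) (ad 1 g (xf g)) (xf g)).toNat ∈
      TB f 2 4 2 I X (f (B g)) (f (C g)) := by
    intro g hg
    obtain ⟨d1, hA, hB, hC, ⟨hA1, hB1, hC1⟩, ⟨hlA, hlB, hlC⟩, ⟨d2, d3⟩, ⟨c1, c2⟩, ⟨n1, n2, n3⟩,
      ⟨n4, n5, n6⟩, ⟨n7, n8, n9⟩⟩ := hk g hg
    rw [mem_TB]
    refine ⟨by omega, by omega, B g, C g, ?_, ⟨hB1, hlB, rfl⟩, ⟨hC1, hlC, rfl⟩⟩
    rw [Int.toNat_of_nonneg (by linarith), ← efm, ← qf_mul_det d3, hB, hC]; ring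
  -- pigeonhole
  set F : ℤ × ℤ → H × H × H := fun g => (f (A g), f (B g), f (C g)) with hF
  have hsum := Finset.card_eq_sum_card_fiberwise (f := F) (s := G) (t := univ)
    (fun g _ => mem_coe.2 (mem_univ _))
  have : Nonempty H := ⟨f 0⟩
  have hH : 0 < Nat.card H := Nat.card_pos
  have hcard : (univ : Finset (H × H × H)).card = Nat.card H ^ 3 := by
    rw [card_univ, Fintype.card_prod, Fintype.card_prod, Nat.card_eq_fintype_card]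
    ring
  obtain ⟨y, hy4⟩ : ∃ y : H × H × H, G.card ≤ Nat.card H ^ 3 * (G.filter (fun g => F g = y)).card := by
    by_contra hcon
    push Not at hcon
    have h1 : ∑ y : H × H × H, Nat.card H ^ 3 * (G.filter (fun g => F g = y)).card
        < ∑ _y : H × H × H, G.card :=
      sum_lt_sum_of_nonempty ⟨(f 0, f 0, f 0), mem_univ _⟩ (fun y _ => hcon y)
    rw [← mul_sum, ← hsum, sum_const, hcard, smul_eq_mul] at h1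
    exact lt_irrefl _ h1
  have red : ∀ S : ℕ, (G.filter (fun g => F g = y)).card ≤ T * S →
      G.card ≤ Nat.card H ^ 3 * T * S := by
    intro S h
    calc G.card ≤ Nat.card H ^ 3 * (G.filter (fun g => F g = y)).card := hy4
      _ ≤ Nat.card H ^ 3 * (T * S) := Nat.mul_le_mul_left _ h
      _ = Nat.card H ^ 3 * T * S := by ring
  refine ⟨y.1, y.2.1, y.2.2, red _ ?_, red _ ?_, red _ ?_⟩
  · refine count_inj2 (G.filter (fun g => F g = y)) (fun g => (g, xf g))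
      (fun g _ g' _ h => (Prod.ext_iff.1 h).1) ?_ ?_ ?_ (TB f 1 2 1 I X y.1 y.2.1) ?_ T ?_
    · intro g hg; exact (hk g (mem_filter.1 hg).1).1
    · intro g hg
      obtain ⟨d1, hA, hB, hC, ⟨hA1, hB1, hC1⟩, ⟨hlA, hlB, hlC⟩, ⟨d2, d3⟩, ⟨c1, c2⟩, ⟨n1, n2, n3⟩,
        ⟨n4, n5, n6⟩, ⟨n7, n8, n9⟩⟩ := hk g (mem_filter.1 hg).1
      exact n1
    · intro g hg
      obtain ⟨d1, hA, hB, hC, ⟨hA1, hB1, hC1⟩, ⟨hlA, hlB, hlC⟩, ⟨d2, d3⟩, ⟨c1, c2⟩, ⟨n1, n2, n3⟩,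
        ⟨n4, n5, n6⟩, ⟨n7, n8, n9⟩⟩ := hk g (mem_filter.1 hg).1
      exact c1
    · intro g hg
      have h1 := m1 g (mem_filter.1 hg).1
      have h2 := (mem_filter.1 hg).2
      rw [← h2]
      exact h1
    · intro N hN
      exact hT N (mem_TB.1 hN).1
  · refine count_inj2 (G.filter (fun g => F g = y)) (fun g => (ad 1 g (xf g), xf g))
      (fun g _ g' _ h => ?_) ?_ ?_ ?_ (TB f 2 4 2 I X y.2.1 y.2.2) ?_ T ?_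
    · have h1 := (Prod.ext_iff.1 h).1
      have h2 := (Prod.ext_iff.1 h).2
      simp only at h1 h2
      rw [h2] at h1
      unfold ad at h1
      rw [Prod.mk.injEq] at h1
      exact Prod.ext (by linarith [h1.1]) (by linarith [h1.2])
    · intro g hg
      obtain ⟨d1, hA, hB, hC, ⟨hA1, hB1, hC1⟩, ⟨hlA, hlB, hlC⟩, ⟨d2, d3⟩, ⟨c1, c2⟩, ⟨n1, n2, n3⟩,
        ⟨n4, n5, n6⟩, ⟨n7, n8, n9⟩⟩ := hk g (mem_filter.1 hg).1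
      exact d3
    · intro g hg
      obtain ⟨d1, hA, hB, hC, ⟨hA1, hB1, hC1⟩, ⟨hlA, hlB, hlC⟩, ⟨d2, d3⟩, ⟨c1, c2⟩, ⟨n1, n2, n3⟩,
        ⟨n4, n5, n6⟩, ⟨n7, n8, n9⟩⟩ := hk g (mem_filter.1 hg).1
      exact n7
    · intro g hg
      obtain ⟨d1, hA, hB, hC, ⟨hA1, hB1, hC1⟩, ⟨hlA, hlB, hlC⟩, ⟨d2, d3⟩, ⟨c1, c2⟩, ⟨n1, n2, n3⟩,
        ⟨n4, n5, n6⟩, ⟨n7, n8, n9⟩⟩ := hk g (mem_filter.1 hg).1
      exact c2
    · intro g hg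
      have h1 := m3 g (mem_filter.1 hg).1
      have h2 := (mem_filter.1 hg).2
      rw [← h2]
      exact h1
    · intro N hN
      exact hT N (mem_TB.1 hN).1
  · refine count_inj2 (G.filter (fun g => F g = y)) (fun g => (g, ad 1 g (xf g)))
      (fun g _ g' _ h => (Prod.ext_iff.1 h).1) ?_ ?_ ?_ (TB f 0 4 2 I X y.1 y.2.2) ?_ T ?_
    · intro g hg
      obtain ⟨d1, hA, hB, hC, ⟨hA1, hB1, hC1⟩, ⟨hlA, hlB, hlC⟩, ⟨d2, d3⟩, ⟨c1, c2⟩, ⟨n1, n2, n3⟩,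
        ⟨n4, n5, n6⟩, ⟨n7, n8, n9⟩⟩ := hk g (mem_filter.1 hg).1
      exact d2
    · intro g hg
      obtain ⟨d1, hA, hB, hC, ⟨hA1, hB1, hC1⟩, ⟨hlA, hlB, hlC⟩, ⟨d2, d3⟩, ⟨c1, c2⟩, ⟨n1, n2, n3⟩,
        ⟨n4, n5, n6⟩, ⟨n7, n8, n9⟩⟩ := hk g (mem_filter.1 hg).1
      exact n4
    · intro g hg
      obtain ⟨d1, hA, hB, hC, ⟨hA1, hB1, hC1⟩, ⟨hlA, hlB, hlC⟩, ⟨d2, d3⟩, ⟨c1, c2⟩, ⟨n1, n2, n3⟩,
        ⟨n4, n5, n6⟩, ⟨n7, n8, n9⟩⟩ := hk g (mem_filter.1 hg).1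
      exact c1
    · intro g hg
      have h1 := m2 g (mem_filter.1 hg).1
      have h2 := (mem_filter.1 hg).2
      rw [← h2]
      exact h1
    · intro N hN
      exact hT N (mem_TB.1 hN).1

end Pool.Agent.Helper81K1.RP
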