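import Pool.Agent.Helper81K1.RP.Count

/-!
The finite version, with the base vectors of `Pool.Agent.H505R2.Gset_card`.
-/

set_option autoImplicit false

namespace Pool.Agent.Helper81K1.RP

open Finset Pool.Agent.H505R2

variable {H : Type}

theorem finite_version [Finite H] (f : ℕ → H)
    (I : ℕ) (hI : 10 ≤ I) (V W X T C0 : ℕ) (hW : 37 * V ≤ 2 ^ W)
    (hKV : 2 ^ (585 * 2 ^ I) ≤ V) (hWI : W * 2 ^ (93 * I + 4) ≤ 2 ^ 2 ^ I)
    (hC0 : 2 * 72 ^ 2 * 148 ^ 2 ≤ C0)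
    (hX : C0 * 2 ^ (1168 * 2 ^ I) * V ^ 2 ≤ X)
    (hT : ∀ N : ℕ, N ≤ X → (((N : ℤ) ^ 2 - 2).toNat).divisors.card ≤ T) :
    ∃ a b c : H,
      (V : ℝ) ^ 2 ≤ 2 ^ (584 * 2 ^ I) *
        ((Nat.card H : ℝ) ^ 3 * T * ((TB f 1 2 1 I X a b).card : ℝ)) ∧
      (V : ℝ) ^ 2 ≤ 2 ^ (584 * 2 ^ I) *
        ((Nat.card H : ℝ) ^ 3 * T * ((TB f 2 4 2 I X b c).card : ℝ)) ∧
      (V : ℝ) ^ 2 ≤ 2 ^ (584 * 2 ^ I) *
        ((Nat.card H : ℝ) ^ 3 * T * ((TB f 0 4 2 I X a c).card : ℝ)) := by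
  classical
  have hcount := Gset_card 0 (-2) 3 I hI V W hW hKV hWI
  set G := (Gset 0 (-2) 3 I V).image (fun w => gv 3 w.2 w.1) with hG
  have hcard : G.card = (Gset 0 (-2) 3 I V).card := by
    rw [hG]
    apply card_image_of_injective
    intro w w' h
    have := gv_inj h
    exact Prod.ext this.2 this.1
  have hprop : ∀ g ∈ G, ∃ u v : ℕ, g = gv 3 u v ∧ 0 < u ∧ u ≤ V ∧ v < V ∧
      Sft I (qf 0 (-2) g) ∧ IsCoprime g.1 g.2 := by
    intro g hg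
    rw [hG, mem_image] at hg
    obtain ⟨w, hw, rfl⟩ := hg
    rw [Gset, mem_filter, mem_product, mem_range, mem_Ioc] at hw
    exact ⟨w.2, w.1, rfl, hw.1.2.1, hw.1.2.2, hw.1.1, hw.2.1, hw.2.2⟩
  have key := main_count f I hI G (by
    intro g hg
    obtain ⟨u, v, rfl, hu0, huV, hvV, h1, h2⟩ := hprop g hg
    refine ⟨h2, ⟨u, v, by positivity, by positivity, ?_, ?_⟩, h1⟩
    · unfold gv; simp only
    · unfold gv; simp only; push_cast; ring) X T (by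
    intro g hg
    obtain ⟨u, v, rfl, hu0, huV, hvV, h1, h2⟩ := hprop g hg
    have huV' : (u : ℤ) ≤ V := by exact_mod_cast huV
    have hvV' : (v : ℤ) + 1 ≤ V := by exact_mod_cast hvV
    have hu0' : (0 : ℤ) ≤ u := by positivity
    have hv0' : (0 : ℤ) ≤ v := by positivity
    have hV0 : (0 : ℤ) ≤ V := by positivity
    have e1 : 0 ≤ (gv 3 u v).1 ∧ (gv 3 u v).1 ≤ 148 * V := by
      unfold gv; simp only
      push_cast
      constructor
      · positivity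
      · linarith
    have e2 : 0 ≤ (gv 3 u v).2 := by unfold gv; simp only; positivity
    obtain ⟨K, hK⟩ : ∃ K : ℤ, K = 2 ^ (584 * 2 ^ I) := ⟨_, rfl⟩
    have hK1 : 1 ≤ K := by rw [hK]; exact one_le_pow₀ (by norm_num)
    have hq0 : 0 ≤ qf 0 (-2) (gv 3 u v) := by
      refine (qf_pos_of_cn ⟨?_, e2, ?_⟩).le
      · unfold gv; simp only; push_cast; positivity
      · unfold gv; simp only; push_cast; linarith
    have hqle : qf 0 (-2) (gv 3 u v) ≤ (148 * V) ^ 2 := by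
      have f1 : (gv 3 u v).1 ^ 2 ≤ (148 * V) ^ 2 := pow_le_pow_left₀ e1.1 e1.2 2
      unfold qf
      nlinarith [sq_nonneg (gv 3 u v).2]
    have hR : (36 * K + 36) ^ 2 ≤ (72 * K) ^ 2 := pow_le_pow_left₀ (by linarith) (by linarith) 2
    rw [← hK]
    calc 2 * (36 * K + 36) ^ 2 * qf 0 (-2) (gv 3 u v)
        ≤ 2 * (72 * K) ^ 2 * (148 * V) ^ 2 := by
          apply mul_le_mul _ hqle hq0 (by positivity)
          linarith
      _ = (2 * 72 ^ 2 * 148 ^ 2) * (K ^ 2 * V ^ 2) := by ring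
      _ ≤ C0 * (K ^ 2 * V ^ 2) :=
          mul_le_mul_of_nonneg_right (by exact_mod_cast hC0) (by positivity)
      _ = ((C0 * 2 ^ (1168 * 2 ^ I) * V ^ 2 : ℕ) : ℤ) := by
          push_cast
          rw [hK, ← pow_mul, show 584 * 2 ^ I * 2 = 1168 * 2 ^ I by ring]
          ring
      _ ≤ X := by exact_mod_cast hX) hT
  have hKpos : (0 : ℝ) < 2 ^ (584 * 2 ^ I) := by positivity
  have conv : ∀ S : ℕ, G.card ≤ Nat.card H ^ 3 * T * S →
      (V : ℝ) ^ 2 ≤ 2 ^ (584 * 2 ^ I) * ((Nat.card H : ℝ) ^ 3 * T * (S : ℝ)) := by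
    intro S h
    refine hcount.trans ?_
    apply mul_le_mul_of_nonneg_left _ hKpos.le
    rw [← hcard]
    have : ((G.card : ℕ) : ℝ) ≤ ((Nat.card H ^ 3 * T * S : ℕ) : ℝ) := by exact_mod_cast h
    push_cast at this
    exact this
  obtain ⟨a, b, c, h1, h2, h3⟩ := key
  exact ⟨a, b, c, conv _ h1, conv _ h2, conv _ h3⟩

end Pool.Agent.Helper81K1.RP
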