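import Pool.Agent.H505R2.Parity
import Pool.Agent.H505R2.Gammas

/-!
The indefinite form `x ^ 2 - 2 y ^ 2` in the cone `0 ≤ 2 y ≤ x`: in this cone a vector is determined by
the ideal that it generates, so that the pairs of vectors with determinant `1` and inner product `n` are
at most as many as the divisors of `n ^ 2 - 2`.
-/

set_option autoImplicit false

namespace Pool.Agent.Helper81K1.RP

open Finset Pool.Agent.H505R2

/-- the cone -/
def Cn (x : ℤ × ℤ) : Prop := 0 < x.1 ∧ 0 ≤ x.2 ∧ 2 * x.2 ≤ x.1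

lemma qf_pos_of_cn {x : ℤ × ℤ} (h : Cn x) : 0 < qf 0 (-2) x := by
  obtain ⟨h1, h2, h3⟩ := h
  unfold qf
  nlinarith

/-- a pair in the cone is determined by the first norm and the inner product -/
lemma fiber_unique {w w' : (ℤ × ℤ) × (ℤ × ℤ)} (h : dt w.1 w.2 = 1) (h' : dt w'.1 w'.2 = 1)
    (hip : ip 0 (-2) w'.1 w'.2 = ip 0 (-2) w.1 w.2)
    (hqf : qf 0 (-2) w'.1 = qf 0 (-2) w.1) (hc : Cn w.1) (hc' : Cn w'.1) : w = w' := by
  have hq := qf_pos_of_cn hc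
  obtain ⟨q, hqd⟩ : ∃ q, q = qf 0 (-2) w.1 := ⟨_, rfl⟩
  obtain ⟨N, hN⟩ : ∃ N, N = ip 0 (-2) w.1 w.2 := ⟨_, rfl⟩
  rw [← hqd] at hq hqf
  rw [← hN] at hip
  obtain ⟨e1, e2⟩ := rel (b := 0) (c := -2) h'
  obtain ⟨e3, e4⟩ := rel (b := 0) (c := -2) h
  rw [hip, hqf] at e1 e2
  rw [← hN, ← hqd] at e3 e4
  have k1 : ip 0 (-2) w.1 w'.1 = q * (w'.1.1 * w.2.2 - w.1.2 * w'.2.1) := by
    unfold ip
    linear_combination (-w'.1.1) * e4 + w.1.2 * e1
  have k2 : dt w.1 w'.1 = q * (w.2.2 * w'.1.2 - w.1.2 * w'.2.2) := by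
    unfold dt
    linear_combination (-w'.1.2) * e4 + w.1.2 * e2
  obtain ⟨s, hs⟩ : ∃ s, s = w'.1.1 * w.2.2 - w.1.2 * w'.2.1 := ⟨_, rfl⟩
  obtain ⟨t, ht⟩ : ∃ t, t = w.2.2 * w'.1.2 - w.1.2 * w'.2.2 := ⟨_, rfl⟩
  rw [← hs] at k1
  rw [← ht] at k2
  have hm' := qf_mul (b := 0) (c := -2) w.1 w'.1
  rw [hqf, ← hqd, k1, k2] at hm'
  have hm2 : q ^ 2 * (s ^ 2 - 2 * t ^ 2) = q ^ 2 * 1 := by linear_combination -hm'
  have hm3 := mul_left_cancel₀ (pow_ne_zero 2 hq.ne') hm2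
  obtain ⟨c1, c2, c3⟩ := hc
  obtain ⟨d1, d2, d3⟩ := hc'
  have hA : 2 * dt w.1 w'.1 ≤ ip 0 (-2) w.1 w'.1 := by
    unfold dt ip
    have a1 : 0 ≤ w.1.1 * (w'.1.1 - 2 * w'.1.2) := mul_nonneg c1.le (by linarith)
    have a2 : 0 ≤ w.1.2 * (w'.1.1 - w'.1.2) := mul_nonneg c2 (by linarith)
    nlinarith
  have hB : -(2 * dt w.1 w'.1) ≤ ip 0 (-2) w.1 w'.1 := by
    unfold dt ip
    have a1 : 0 ≤ w'.1.1 * (w.1.1 - 2 * w.1.2) := mul_nonneg d1.le (by linarith)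
    have a2 : 0 ≤ w'.1.2 * (w.1.1 - w.1.2) := mul_nonneg d2 (by linarith)
    nlinarith
  rw [k1, k2] at hA hB
  have hA' : 2 * t ≤ s := by
    have : q * (2 * t) ≤ q * s := by linarith
    exact le_of_mul_le_mul_left this hq
  have hB' : -(2 * t) ≤ s := by
    have : q * (-(2 * t)) ≤ q * s := by linarith
    exact le_of_mul_le_mul_left this hq
  have hs0 : 0 ≤ s := by linarith
  have hts : (2 * t) ^ 2 ≤ s ^ 2 := sq_le_sq' (by linarith) hA'
  have ht0 : t = 0 := by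
    have h1 : 2 * t ^ 2 ≤ 1 := by nlinarith
    by_contra hne
    have h2 : 1 ≤ t ^ 2 := by
      have : 0 < t ^ 2 := by positivity
      linarith
    linarith
  have hs1 : s = 1 := by
    rw [ht0] at hm3
    nlinarith
  rw [hs1, mul_one] at k1
  rw [ht0, mul_zero] at k2
  have x1 : w.1.1 = w'.1.1 := by
    apply mul_left_cancel₀ hq.ne'
    have r1 : q * w'.1.1 = w.1.1 * ip 0 (-2) w.1 w'.1 + 2 * w.1.2 * dt w.1 w'.1 := by
      rw [hqd]; unfold qf ip dt; ring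
    rw [k1, k2] at r1
    linarith
  have x2 : w.1.2 = w'.1.2 := by
    apply mul_left_cancel₀ hq.ne'
    have r2 : q * w'.1.2 = w.1.2 * ip 0 (-2) w.1 w'.1 + w.1.1 * dt w.1 w'.1 := by
      rw [hqd]; unfold qf ip dt; ring
    rw [k1, k2] at r2
    linarith
  have y1 : w.2.1 = w'.2.1 := by
    apply mul_left_cancel₀ hq.ne'
    rw [e1, e3, x1, x2]
  have y2 : w.2.2 = w'.2.2 := by
    apply mul_left_cancel₀ hq.ne'
    rw [e2, e4, x1, x2]
  exact Prod.ext (Prod.ext x1 x2) (Prod.ext y1 y2)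

/-- pairs in the cone with a given inner product -/
lemma pairs_card2 (N : ℤ) (hN : 2 ≤ N) (F : Finset ((ℤ × ℤ) × (ℤ × ℤ)))
    (hF : ∀ w ∈ F, dt w.1 w.2 = 1 ∧ ip 0 (-2) w.1 w.2 = N ∧ Cn w.1) :
    F.card ≤ (N ^ 2 - 2).toNat.divisors.card := by
  classical
  apply Finset.card_le_card_of_injOn (fun w => (qf 0 (-2) w.1).toNat)
  · intro w hw
    rw [mem_coe] at hw
    obtain ⟨h1, h2, h3⟩ := hF w hw
    have h4 := qf_mul_det (b := 0) (c := -2) h1
    rw [h2] at h4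
    have e : fm 0 (-2) 1 N = N ^ 2 - 2 := by unfold fm; ring
    rw [e] at h4
    have p1 := qf_pos_of_cn h3
    have p3 : 0 < N ^ 2 - 2 := by nlinarith
    have p2 : 0 < qf 0 (-2) w.2 := by
      rw [← h4] at p3
      exact (mul_pos_iff_of_pos_left p1).1 p3
    rw [mem_coe, Nat.mem_divisors]
    refine ⟨⟨(qf 0 (-2) w.2).toNat, ?_⟩, by omega⟩
    rw [← h4, Int.toNat_mul p1.le p2.le]
  · intro w hw w' hw' he
    rw [mem_coe] at hw hw'
    obtain ⟨h1, h2, h3⟩ := hF w hw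
    obtain ⟨h1', h2', h3'⟩ := hF w' hw'
    have p1 := qf_pos_of_cn h3
    have p1' := qf_pos_of_cn h3'
    simp only at he
    exact fiber_unique h1 h1' (by rw [h2, h2']) (by omega) h3 h3'

theorem count_inj2 (G : Finset (ℤ × ℤ))
    (w : ℤ × ℤ → (ℤ × ℤ) × (ℤ × ℤ)) (hw : Set.InjOn w G) (hdt : ∀ g ∈ G, dt (w g).1 (w g).2 = 1)
    (hnn : ∀ g ∈ G, 2 ≤ ip 0 (-2) (w g).1 (w g).2) (hcn : ∀ g ∈ G, Cn (w g).1) (S : Finset ℕ)
    (hS : ∀ g ∈ G, (ip 0 (-2) (w g).1 (w g).2).toNat ∈ S) (T : ℕ)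
    (hT : ∀ N ∈ S, (((N : ℤ) ^ 2 - 2).toNat).divisors.card ≤ T) :
    G.card ≤ T * S.card := by
  classical
  apply Finset.card_le_mul_card_image_of_maps_to hS
  intro N hN
  by_cases hN2 : 2 ≤ (N : ℤ)
  · have h1 : ((G.filter (fun g => (ip 0 (-2) (w g).1 (w g).2).toNat = N)).image w).card ≤
        (((N : ℤ) ^ 2 - 2).toNat).divisors.card := by
      apply pairs_card2 (N : ℤ) hN2
      intro v hv
      rw [mem_image] at hv
      obtain ⟨g, hg, rfl⟩ := hv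
      rw [mem_filter] at hg
      refine ⟨hdt g hg.1, ?_, hcn g hg.1⟩
      have := hnn g hg.1
      omega
    rw [card_image_of_injOn (fun x hx y hy h => hw (by
      rw [mem_coe, mem_filter] at hx; exact hx.1) (by
      rw [mem_coe, mem_filter] at hy; exact hy.1) h)] at h1
    exact h1.trans (hT N hN)
  · have h1 : G.filter (fun g => (ip 0 (-2) (w g).1 (w g).2).toNat = N) = ∅ := by
      rw [filter_eq_empty_iff]
      intro g hg he
      have := hnn g hg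
      omega
    rw [h1, card_empty]
    exact Nat.zero_le _

end Pool.Agent.Helper81K1.RP
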