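import Pool.Agent.Helper81K1.RP.Forms

/-!
Triangles of vectors with norms free of small primes. `exists_triple'` is the theorem
`Pool.Agent.H505R2.exists_triple` with the condition of definiteness replaced by `0 < qf b c g`; the
proof is the same.
-/

set_option autoImplicit false

namespace Pool.Agent.Helper81K1.RP

open Finset Pool.Agent.H505R2

theorem exists_triple' {b c : ℤ} (j t m : ℤ) (I : ℕ) (hI : 10 ≤ I)
    (g : ℤ × ℤ) (hq : 0 < qf b c g) (hg : IsCoprime g.1 g.2) (u v : ℤ) (hv : g.2 = 36 * v + 1)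
    (hu : g.1 = 36 * u + j * g.2) (hS : Sft I (qf b c g)) :
    ∃ x : ℤ × ℤ, dt g x = 1 ∧ 36 * qf b c g ≤ ip b c g x ∧
      ip b c g x ≤ (36 * 2 ^ (584 * 2 ^ I) + 36) * qf b c g ∧
      Sft I (qf b c x) ∧ Sft I (qf b c (x.1 + m * g.1, x.2 + m * g.2)) ∧
      ∃ u' v' : ℤ, x.1 = 36 * u' + (j * t - 1) ∧ x.2 = 36 * v' + t := by
  classical
  obtain ⟨a, d, had⟩ := hg
  set q := qf b c g with hqdef
  set n0 := ip b c g (-d, a) with hn0
  set w0 := n0 / q with hw0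
  set x0 : ℤ × ℤ := (-d - w0 * g.1, a - w0 * g.2) with hx0
  have hdx0 : g.1 * x0.2 - g.2 * x0.1 = 1 := by
    simp only [hx0]; linear_combination had
  have hip0 : ip b c g x0 = n0 % q := by
    have h1 : n0 % q = n0 - q * w0 := by rw [hw0]; exact Int.emod_def _ _
    rw [h1, hn0, hqdef]
    simp only [hx0]
    unfold ip qf
    ring
  set k0 := (t - x0.2) % 36 with hk0
  have hk00 : 0 ≤ k0 := Int.emod_nonneg _ (by norm_num)
  have hk01 : k0 < 36 := Int.emod_lt_of_pos _ (by norm_num)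
  set L := ip b c g x0 + ip b c x0 g with hL
  set K : ℕ := 2 ^ (584 * 2 ^ I) with hK
  have hA : Sft I (1296 * q) := Sft_mul (Sft_1296 I) hS
  have hs := sift_quad I (by omega) (1296 * q) (72 * k0 * q + 36 * L) (q * k0 ^ 2 + L * k0 + qf b c x0)
    (1296 * q) (72 * (k0 + m) * q + 36 * L) (q * (k0 + m) ^ 2 + L * (k0 + m) + qf b c x0) hA hA K
  have hpos := lt_of_lt_of_le (K_big I hI) hs
  have hne : ((Ioc 0 K).filter (fun n : ℕ =>
      Sft I (1296 * q * (n : ℤ) ^ 2 + (72 * k0 * q + 36 * L) * n + (q * k0 ^ 2 + L * k0 + qf b c x0)) ∧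
      Sft I (1296 * q * (n : ℤ) ^ 2 + (72 * (k0 + m) * q + 36 * L) * n
        + (q * (k0 + m) ^ 2 + L * (k0 + m) + qf b c x0)))).Nonempty := by
    rw [← Finset.card_pos]
    exact_mod_cast hpos
  obtain ⟨n, hn⟩ := hne
  rw [mem_filter, mem_Ioc] at hn
  obtain ⟨⟨hj0, hjK⟩, hj1, hj2⟩ := hn
  have hjK' : (n : ℤ) ≤ 2 ^ (584 * 2 ^ I) := by
    have : ((n : ℕ) : ℤ) ≤ ((2 ^ (584 * 2 ^ I) : ℕ) : ℤ) := by exact_mod_cast hjK
    push_cast at this
    exact this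
  obtain ⟨R, hR⟩ : ∃ R : ℤ, R = 2 ^ (584 * 2 ^ I) := ⟨_, rfl⟩
  rw [← hR] at hjK' ⊢
  clear_value K
  clear hs hpos hK
  set k : ℤ := k0 + 36 * n with hk
  have hn1 : (1 : ℤ) ≤ n := by exact_mod_cast hj0
  have hkge : 36 ≤ k := by rw [hk]; linarith
  have hkle : k + 1 ≤ 36 * R + 36 := by rw [hk]; linarith
  have h1 : ip b c g (x0.1 + k * g.1, x0.2 + k * g.2) = n0 % q + k * q := by
    rw [← hip0, hqdef]; unfold ip qf; simp only; ring
  have e1 := Int.emod_nonneg n0 hq.ne'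
  have e2 := Int.emod_lt_of_pos n0 hq
  refine ⟨(x0.1 + k * g.1, x0.2 + k * g.2), ?_, ?_, ?_, ?_, ?_, ?_⟩
  · unfold dt; simp only; linear_combination hdx0
  · rw [h1]
    nlinarith
  · rw [h1]
    nlinarith
  · have h1 : qf b c (x0.1 + k * g.1, x0.2 + k * g.2) = 1296 * q * (n : ℤ) ^ 2
        + (72 * k0 * q + 36 * L) * n + (q * k0 ^ 2 + L * k0 + qf b c x0) := by
      rw [hL, hqdef, hk]; unfold ip qf; simp only; ring
    rw [h1]; exact hj1
  · have h1 : qf b c ((x0.1 + k * g.1, x0.2 + k * g.2).1 + m * g.1,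
        (x0.1 + k * g.1, x0.2 + k * g.2).2 + m * g.2) = 1296 * q * (n : ℤ) ^ 2
        + (72 * (k0 + m) * q + 36 * L) * n + (q * (k0 + m) ^ 2 + L * (k0 + m) + qf b c x0) := by
      rw [hL, hqdef, hk]; unfold ip qf; simp only; ring
    rw [h1]; exact hj2
  · obtain ⟨w, hw⟩ : ∃ w, t - x0.2 = 36 * w + k0 := ⟨(t - x0.2) / 36, by omega⟩
    have h2 : x0.2 + k * g.2 = 36 * (-w + n + k * v) + t := by
      rw [hv, hk]; linear_combination -hw
    refine ⟨u * (x0.2 + k * g.2) - v * (x0.1 + k * g.1) + j * v * (x0.2 + k * g.2)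
      + j * (-w + n + k * v), -w + n + k * v, ?_, h2⟩
    simp only
    have h3 : g.1 * (x0.2 + k * g.2) - g.2 * (x0.1 + k * g.1) = 1 := by linear_combination hdx0
    rw [hu, hv] at h3
    rw [hu, hv]
    rw [hv] at h2
    linear_combination -h3 + j * h2

/-- the three vectors `g`, `x`, `g + x` -/
theorem props (I : ℕ) (R : ℤ) (hR1 : 1 ≤ R) (X : ℕ) (g x : ℤ × ℤ)
    (u v : ℤ) (hu0 : 0 ≤ u) (hv0 : 0 ≤ v) (hv : g.2 = 36 * v + 1) (hu : g.1 = 36 * u + 3 * g.2)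
    (hS : Sft I (qf 0 (-2) g))
    (x1 : dt g x = 1) (x2 : 36 * qf 0 (-2) g ≤ ip 0 (-2) g x)
    (x3 : ip 0 (-2) g x ≤ R * qf 0 (-2) g)
    (x4 : Sft I (qf 0 (-2) x)) (x5 : Sft I (qf 0 (-2) (ad 1 g x))) (u' v' : ℤ)
    (hx1 : x.1 = 36 * u' + (-1)) (hx2 : x.2 = 36 * v' + 0)
    (hX : 2 * R ^ 2 * qf 0 (-2) g ≤ X) :
    ∃ A B C : ℕ, qf 0 (-2) g = A ∧ qf 0 (-2) x = B ∧ qf 0 (-2) (ad 1 g x) = 2 * C ∧
      (1 < A ∧ 1 < B ∧ 1 < C) ∧ (Lg I A ∧ Lg I B ∧ Lg I C) ∧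
      (dt g (ad 1 g x) = 1 ∧ dt (ad 1 g x) x = 1) ∧ (Cn g ∧ Cn (ad 1 g x)) ∧
      (2 ≤ ip 0 (-2) g x ∧ ip 0 (-2) g x ≤ X ∧ ip 0 (-2) g x % 2 = 1) ∧
      (2 ≤ ip 0 (-2) g (ad 1 g x) ∧ ip 0 (-2) g (ad 1 g x) ≤ X ∧
        ip 0 (-2) g (ad 1 g x) % 4 = 0) ∧
      (2 ≤ ip 0 (-2) (ad 1 g x) x ∧ ip 0 (-2) (ad 1 g x) x ≤ X ∧
        ip 0 (-2) (ad 1 g x) x % 4 = 2) := by
  have d1 : dt g (ad 1 g x) = 1 := by
    rw [← x1]; unfold dt ad; simp only; ring
  have d2 : dt (ad 1 g x) x = 1 := by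
    have : dt (ad 1 g x) x = dt g x := by unfold dt ad; simp only; ring
    rw [this, x1]
  have g2 : 1 ≤ g.2 := by rw [hv]; linarith
  have g1 : 3 * g.2 ≤ g.1 := by rw [hu]; linarith
  have cg : Cn g := ⟨by linarith, by linarith, by linarith⟩
  have hqg7 : 7 ≤ qf 0 (-2) g := by
    have : (3 * g.2) ^ 2 ≤ g.1 ^ 2 := pow_le_pow_left₀ (by linarith) g1 2
    unfold qf
    nlinarith
  -- the vector `x` in terms of `g`
  have r1 : qf 0 (-2) g * x.1 = ip 0 (-2) g x * g.1 + 2 * g.2 := by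
    have := (rel (b := 0) (c := -2) x1).1
    linarith
  have r2 : qf 0 (-2) g * x.2 = ip 0 (-2) g x * g.2 + g.1 := by
    have := (rel (b := 0) (c := -2) x1).2
    linarith
  have hN6 : 6 ≤ ip 0 (-2) g x := by linarith
  have cx : Cn x := by
    refine ⟨?_, ?_, ?_⟩
    · have h1 : 0 < qf 0 (-2) g * x.1 := by
        rw [r1]
        have : 0 ≤ ip 0 (-2) g x * g.1 := mul_nonneg (by linarith) (by linarith)
        linarith
      exact (mul_pos_iff_of_pos_left (by linarith)).1 h1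
    · have h1 : 0 ≤ qf 0 (-2) g * x.2 := by
        rw [r2]
        have : 0 ≤ ip 0 (-2) g x * g.2 := mul_nonneg (by linarith) (by linarith)
        linarith
      exact (mul_nonneg_iff_of_pos_left (by linarith)).1 h1
    · have h1 : qf 0 (-2) g * (2 * x.2) ≤ qf 0 (-2) g * x.1 := by
        have e : qf 0 (-2) g * (2 * x.2) = 2 * (qf 0 (-2) g * x.2) := by ring
        rw [e, r1, r2]
        have h2 : 0 ≤ ip 0 (-2) g x * (g.1 - 3 * g.2) := mul_nonneg (by linarith) (by linarith)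
        have h3 : 6 * g.2 ≤ ip 0 (-2) g x * g.2 := mul_le_mul_of_nonneg_right hN6 (by linarith)
        have h4 : 0 ≤ (ip 0 (-2) g x - 6) * (g.1 - 3 * g.2) :=
          mul_nonneg (by linarith) (by linarith)
        nlinarith
      exact le_of_mul_le_mul_left h1 (by linarith)
  have cw : Cn (ad 1 g x) := by
    obtain ⟨a1, a2, a3⟩ := cg
    obtain ⟨b1, b2, b3⟩ := cx
    refine ⟨?_, ?_, ?_⟩ <;> unfold ad <;> simp only <;> linarith
  obtain ⟨kA, hkA⟩ := qf_res 0 (-2) (u + 3 * v) v 3 1 (x := g) (by rw [hu, hv]; ring) hv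
  obtain ⟨kB, hkB⟩ := qf_res 0 (-2) u' v' (-1) 0 hx1 hx2
  obtain ⟨kC, hkC⟩ := qf_res 0 (-2) (u' + (u + 3 * v)) (v' + v) 2 1
    (x := ad 1 g x) (by unfold ad; simp only; rw [hx1, hu, hv]; ring)
    (by unfold ad; simp only; rw [hx2, hv]; ring)
  have n1 : qf 0 (-2) ((3 : ℤ), (1 : ℤ)) = 7 := by unfold qf; norm_num
  have n2 : qf 0 (-2) ((-1 : ℤ), (0 : ℤ)) = 1 := by unfold qf; norm_num
  have n3 : qf 0 (-2) ((2 : ℤ), (1 : ℤ)) = 2 := by unfold qf; norm_num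
  rw [n1] at hkA
  rw [n2] at hkB
  rw [n3] at hkC
  have hipr : ∃ k, ip 0 (-2) g x = -3 + 36 * k := by
    refine ⟨(u + 3 * v) * 36 * u' + 3 * u' - (u + 3 * v) - 2 * (36 * v + 1) * v', ?_⟩
    unfold ip
    rw [hx1, hx2, hu, hv]
    ring
  obtain ⟨kN, hkN⟩ := hipr
  have hC' : qf 0 (-2) (ad 1 g x) = 2 * (1 + 18 * kC) := by
    rw [hkC]; ring
  obtain ⟨C', hC'def⟩ : ∃ C', C' = 1 + 18 * kC := ⟨_, rfl⟩
  rw [← hC'def] at hC'
  have p1 := qf_pos_of_cn cg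
  have p2 := qf_pos_of_cn cx
  have p3 := qf_pos_of_cn cw
  have hC'pos : 0 < C' := by
    rw [hC'] at p3
    linarith
  have hq := qf_mul_det (b := 0) (c := -2) x1
  have i2 : ip 0 (-2) g (ad 1 g x) = ip 0 (-2) g x + qf 0 (-2) g := by
    unfold ip qf ad; simp only; ring
  have i3 : ip 0 (-2) (ad 1 g x) x = qf 0 (-2) x + ip 0 (-2) g x := by
    unfold ip qf ad; simp only; ring
  have hlA : Lg I (qf 0 (-2) g).toNat := lg_of_sft (by linarith) hS (by rw [hkA]; omega)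
    (by rw [hkA]; omega)
  have hlB : Lg I (qf 0 (-2) x).toNat := lg_of_sft (by linarith) x4 (by rw [hkB]; omega)
    (by rw [hkB]; omega)
  have hlC : Lg I C'.toNat := by
    apply lg_of_sft hC'pos
    · intro p hp hd
      apply x5 p hp
      rw [hC']
      exact Dvd.dvd.mul_left hd _
    · rw [hC'def]; omega
    · rw [hC'def]; omega
  have e : fm 0 (-2) 1 (ip 0 (-2) g x) = ip 0 (-2) g x ^ 2 - 2 := by unfold fm; ring
  rw [e] at hq
  rw [i2, i3]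
  clear r1 r2 n1 n2 n3 e hS x4 x5 hu hv hx1 hx2
  set N := ip 0 (-2) g x with hN
  set q := qf 0 (-2) g with hqd
  set Q := qf 0 (-2) x with hQd
  have hqx1 : q < Q := by
    by_contra hcon
    push Not at hcon
    nlinarith
  have hqx2 : Q ≤ R ^ 2 * q := by
    have h1 : q * Q ≤ q * (R ^ 2 * q) := by
      rw [hq]
      have h2 : N ^ 2 ≤ (R * q) ^ 2 := pow_le_pow_left₀ (by linarith) x3 2
      have h3 : (R * q) ^ 2 = q * (R ^ 2 * q) := by ring
      linarith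
    exact le_of_mul_le_mul_left h1 (by linarith)
  have hRR : R * q ≤ R ^ 2 * q := by
    have : R ≤ R ^ 2 := by nlinarith
    exact mul_le_mul_of_nonneg_right this (by linarith)
  have hbig : Q + N ≤ X := by linarith
  have hC'1 : 1 < C' := by
    have i4 : qf 0 (-2) (ad 1 g x) = Q + 2 * N + q := by
      rw [hQd, hN, hqd]; unfold ip qf ad; simp only; ring
    rw [hC'] at i4
    linarith
  refine ⟨q.toNat, Q.toNat, C'.toNat, (Int.toNat_of_nonneg (by linarith)).symm,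
    (Int.toNat_of_nonneg (by linarith)).symm, ?_, ⟨?_, ?_, ?_⟩, ⟨hlA, hlB, hlC⟩, ⟨d1, d2⟩,
    ⟨cg, cw⟩, ⟨by linarith, by linarith, ?_⟩, ⟨by linarith, by linarith, ?_⟩,
    by linarith, hbig, ?_⟩
  · rw [hC', Int.toNat_of_nonneg hC'pos.le]
  · rw [Int.lt_toNat]; push_cast; linarith
  · rw [Int.lt_toNat]; push_cast; linarith
  · rw [Int.lt_toNat]; push_cast; linarith
  · rw [hkN]; omega
  · rw [hkN, hkA]; omega
  · rw [hkN, hkB]; omega

end Pool.Agent.Helper81K1.RP
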